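import Mathlib

namespace Pool.Agent.Results.MP_d5c8f2_an.NotEmbeddable

open Function
open scoped InnerProductSpace

lemma noroot {E : Type} [AddCommGroup E] [Module ℂ E] (V : E →ₗ[ℂ] E) (M : Submodule ℂ E)
    (hV : ∀ m ∈ M, V m ∈ M) (inj : ∀ m ∈ M, V (V m) = 0 → m = 0) {e : E} (he : e ∈ M)
    (dec : ∀ m ∈ M, ∃ c : ℂ, ∃ m' ∈ M, m = c • e + V (V m')) : ∃ m ∈ M, V (V m) = e := by
  have h1 : ∃ m ∈ M, V m = e := by
    by_contra h
    obtain ⟨c, m, hm, h2⟩ := dec _ (hV e he)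
    rcases eq_or_ne c 0 with rfl | hc
    · refine h ⟨m, hm, (sub_eq_zero.1 (inj _ (M.sub_mem he (hV m hm)) ?_)).symm⟩
      rw [map_sub, h2]
      simp
    · refine h ⟨c⁻¹ • (e - V m), M.smul_mem _ (M.sub_mem he (hV m hm)), ?_⟩
      rw [map_smul, map_sub, h2, add_sub_cancel_right, smul_smul, inv_mul_cancel₀ hc, one_smul]
  obtain ⟨m, hm, h2⟩ := h1
  obtain ⟨c, m', hm', h3⟩ := dec m hm
  refine ⟨c • m + V m', M.add_mem (M.smul_mem _ hm) (hV _ hm'), ?_⟩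
  rw [map_add, map_smul, h2, ← h3, h2]

abbrev ι := ℕ × Fin 3
noncomputable abbrev H := lp (fun _ : ι => ℂ) 2

def σ (p : ι) : ι := if p.2 = 0 then (p.1, 1) else if p.2 = 1 then (p.1, 0) else (p.1 + 1, 2)

lemma hσ : Injective σ := by
  rintro ⟨n, i⟩ ⟨m, j⟩ h
  fin_cases i <;> fin_cases j <;> simp_all [σ]

noncomputable def msk (x : ι → ℂ) (p : ι) : ℂ := if p.2 = 1 then 0 else x p

lemma summ (x : H) : Summable fun i => ‖x i‖ ^ 2 := by
  simpa using x.2.summable (by simp)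

lemma norm_eq (x : H) : ‖x‖ ^ 2 = ∑' i, ‖x i‖ ^ 2 := by
  simpa using lp.norm_rpow_eq_tsum (by simp) x

lemma norm_ext (f : ι → ℂ) :
    (fun i => ‖extend σ f 0 i‖ ^ 2) = extend σ (fun i => ‖f i‖ ^ 2) 0 := by
  funext i
  rw [apply_extend (fun z : ℂ => ‖z‖ ^ 2)]
  congr 1
  funext j
  simp

lemma msk_le (x : ι → ℂ) (p : ι) : ‖msk x p‖ ^ 2 ≤ ‖x p‖ ^ 2 := by
  unfold msk
  split_ifs <;> simp

lemma hs (x : H) : Summable fun i => ‖msk x i‖ ^ 2 :=
  (summ x).of_nonneg_of_le (fun _ => by positivity) (msk_le x)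

noncomputable def T₀ : H →ₗ[ℂ] H where
  toFun x := ⟨extend σ (msk x) 0, memℓp_gen (by
    simpa [norm_ext] using (summable_extend_zero hσ).2 (hs x))⟩
  map_add' x y := by
    ext i
    by_cases h : ∃ j, σ j = i
    · obtain ⟨j, rfl⟩ := h
      simp only [hσ.extend_apply, lp.coeFn_add, Pi.add_apply, msk]
      split_ifs <;> simp
    · simp [extend_apply' _ _ _ h]
  map_smul' c x := by
    ext i
    by_cases h : ∃ j, σ j = i
    · obtain ⟨j, rfl⟩ := h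
      simp only [hσ.extend_apply, lp.coeFn_smul, Pi.smul_apply, msk]
      split_ifs <;> simp
    · simp [extend_apply' _ _ _ h]

lemma norm_T₀ (x : H) : ‖T₀ x‖ ^ 2 = ∑' i, ‖msk x i‖ ^ 2 := by
  rw [norm_eq]
  show ∑' i, ‖extend σ (msk x) 0 i‖ ^ 2 = _
  rw [norm_ext, tsum_extend_zero hσ]

noncomputable def T : H →L[ℂ] H := T₀.mkContinuous 1 fun x => by
  rw [one_mul, ← pow_le_pow_iff_left₀ (norm_nonneg _) (norm_nonneg _) two_ne_zero, norm_T₀, norm_eq]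
  exact (hs x).tsum_le_tsum (msk_le x) (summ x)

lemma Tσ (x : H) (p : ι) : T x (σ p) = msk x p := hσ.extend_apply (msk x) 0 p

@[simp] lemma T0 (x : H) (n : ℕ) : T x (n, 0) = 0 := Tσ x (n, 1)
@[simp] lemma T1 (x : H) (n : ℕ) : T x (n, 1) = x (n, 0) := Tσ x (n, 0)
@[simp] lemma T2 (x : H) (n : ℕ) : T x (n + 1, 2) = x (n, 2) := Tσ x (n, 2)
@[simp] lemma T3 (x : H) : T x (0, 2) = 0 := by
  refine extend_apply' (msk x) (0 : ι → ℂ) _ ?_
  rintro ⟨⟨n, i⟩, h⟩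
  fin_cases i <;> simp [σ] at h

lemma hext {x y : H} (h0 : ∀ n, x (n, 0) = y (n, 0)) (h1 : ∀ n, x (n, 1) = y (n, 1))
    (h2 : x (0, 2) = y (0, 2)) (h3 : ∀ n, x (n + 1, 2) = y (n + 1, 2)) : x = y := by
  ext ⟨n, i⟩
  fin_cases i
  · exact h0 n
  · exact h1 n
  · cases n
    · exact h2
    · exact h3 _

noncomputable def e (p : ι) : H := lp.single 2 p 1

lemma e_apply (p q : ι) : e p q = if q = p then 1 else 0 := by
  simp [e, lp.single_apply, Pi.single_apply]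

lemma inner_e (p : ι) (x : H) : ⟪e p, x⟫_ℂ = x p := by
  simp [e, lp.inner_single_left]

lemma infdim (K : Submodule ℂ H) (j : Fin 3) (h : ∀ n, e (n, j) ∈ K) : ¬ FiniteDimensional ℂ K := by
  intro hK
  refine Module.Finite.not_linearIndependent_of_infinite (R := ℂ)
    (fun n : ℕ => (⟨e (n, j), h n⟩ : K)) (LinearIndependent.of_comp K.subtype ?_)
  refine Orthonormal.linearIndependent (orthonormal_iff_ite.2 fun n m => ?_)
  simp [inner_e, e_apply]

lemma e_ker (n : ℕ) : T (e (n, 1)) = 0 := hext (by simp) (by simp [e_apply]) (by simp) (by simp [e_apply])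

lemma nosqrt (V : H →L[ℂ] H) : V * V ≠ T := by
  intro h
  have hV (x : H) : V (V x) = T x := by rw [← h]; rfl
  refine (?_ : ¬ _) (noroot (V : H →ₗ[ℂ] H) (T * T).range ?_ ?_ (e := e (2, 2)) ?_ ?_)
  · rintro ⟨_, ⟨y, rfl⟩, hy⟩
    have := congrArg (fun w : H => w (2, 2)) hy
    simp [hV, e_apply, T2 _ 1, T2 _ 0] at this
  · rintro _ ⟨y, rfl⟩
    exact ⟨V y, by simp [← hV]⟩
  · rintro _ ⟨y, rfl⟩ hy
    refine hext (by simp) (by simp) (by simp) fun n => ?_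
    simpa [hV] using congrArg (fun w : H => w (n + 2, 2)) hy
  · refine ⟨e (0, 2), hext (by simp [e_apply]) (by simp [e_apply]) (by simp [e_apply]) ?_⟩
    rintro (_ | n) <;> simp [e_apply]
  · rintro _ ⟨y, rfl⟩
    let z : H := ⟨fun p => y (σ p), memℓp_gen (by
      simpa [Function.comp_def] using (summ y).comp_injective hσ)⟩
    have hz (n : ℕ) : z (n, 2) = y (n + 1, 2) := rfl
    refine ⟨y (0, 2), _, ⟨z, rfl⟩, hext ?_ ?_ ?_ ?_⟩
    · simp [hV, e_apply]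
    · simp [hV, e_apply]
    · simp [hV, e_apply]
    · rintro (_ | _ | n) <;> simp [hV, e_apply, hz]

theorem result : ∃ (H : Type) (_ : NormedAddCommGroup H) (_ : InnerProductSpace ℂ H)
    (_ : CompleteSpace H) (T : H →L[ℂ] H),
    (∀ x ∈ T.kerᗮ, ‖T x‖ = ‖x‖) ∧ ¬ FiniteDimensional ℂ T.ker ∧ ¬ FiniteDimensional ℂ T.rangeᗮ ∧
    (∃ x ∈ T.kerᗮ, T x ∉ T.kerᗮ) ∧
    ∀ U : NNReal → H →L[ℂ] H, U 0 = 1 → (∀ s t, U (t + s) = U t * U s) →
      (∀ x, Continuous fun t => U t x) → U 1 ≠ T := by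
  refine ⟨H, _, _, inferInstance, T, fun x hx => ?_, infdim _ 1 e_ker, infdim _ 0 fun n => ?_,
    ⟨e (0, 0), ?_, fun h => ?_⟩, fun U _ h _ => ?_⟩
  · rw [← pow_left_inj₀ (norm_nonneg _) (norm_nonneg _) two_ne_zero, norm_eq x]
    refine (norm_T₀ x).trans (tsum_congr fun ⟨n, i⟩ => ?_)
    unfold msk
    split_ifs with h
    · obtain rfl : i = 1 := h
      rw [← inner_e, hx _ (e_ker n)]
    · rfl
  · rw [Submodule.mem_orthogonal']
    rintro _ ⟨y, rfl⟩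
    simp [inner_e]
  · rw [Submodule.mem_orthogonal']
    intro y hy
    simpa [inner_e] using congrArg (fun w : H => w (0, 1)) (show T y = 0 from hy)
  · simpa [inner_e, e_apply] using h _ (e_ker 0)
  · rw [← add_halves (1 : NNReal), h]
    exact nosqrt _

end Pool.Agent.Results.MP_d5c8f2_an.NotEmbeddable
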